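import Pool.Agent.Run7.h347.OW.Iface

set_option autoImplicit false

open Set Filter Topology Pool.Agent.Results.MP_76989b_gt.NotFrechetUrysohn

namespace Run7.h181.OW

open Pool.Agent.Run7.h347.OW

theorem point {X : Type*} [TopologicalSpace X] (h2 : T2Space X) (hW : OpenWhyburn X) {N : Set X}
    (hN : IsClosed N) (hi : interior N = ∅) (x : X) :
    ∃ B : Set X, IsOpen B ∧ x ∈ closure B ∧ (closure B ∩ N).Finite := by
  by_cases hx : IsOpen ({x} : Set X)
  · refine ⟨{x}, hx, subset_closure rfl, ?_⟩
    rw [closure_singleton]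
    exact (finite_singleton x).inter_of_left N
  · have hxi : interior ({x} : Set X) = ∅ := by
      by_contra h
      obtain ⟨y, hy⟩ := nonempty_iff_ne_empty.2 h
      have hy1 : y = x := mem_singleton_iff.1 (interior_subset hy)
      apply hx
      have h3 : interior ({x} : Set X) = {x} := by
        apply subset_antisymm interior_subset
        rintro z rfl
        rw [hy1] at hy
        exact hy
      rw [← h3]
      exact isOpen_interior
    have hu : interior (N ∪ {x}) = ∅ := by
      rw [interior_union_isClosed_of_interior_empty hN hxi, hi]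
    have hAo : IsOpen (N ∪ {x})ᶜ := (hN.union isClosed_singleton).isOpen_compl
    have hxA : x ∈ closure (N ∪ {x})ᶜ \ (N ∪ {x})ᶜ := by
      refine ⟨?_, fun h => h (Or.inr rfl)⟩
      rw [closure_compl, hu, compl_empty]
      trivial
    obtain ⟨B, hB, hBA, hBx⟩ := hW _ hAo x hxA
    have hxB : x ∈ closure B := by
      have : x ∈ closure B \ (N ∪ {x})ᶜ := by
        rw [hBx]
        rfl
      exact this.1
    refine ⟨B, hB, hxB, ?_⟩
    refine (finite_singleton x).subset ?_
    rw [← hBx]
    rintro y ⟨hy, hyN⟩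
    exact ⟨hy, fun h => h (Or.inl hyN)⟩

theorem t_A {X : Type*} [TopologicalSpace X] : S_A X := by
  intro h2 hW hS N hN hi
  obtain ⟨B, hB⟩ := Classical.axiomOfChoice (point h2 hW hN hi)
  set 𝒲 : Set (Set X) := {u | ∃ B : Set X, IsOpen B ∧ (closure B ∩ N).Finite ∧ u = closure B}
    with h𝒲
  have hfin : ∀ F : Set X, F.Finite → ∃ u ∈ 𝒲, F ⊆ u := by
    intro F hF
    refine ⟨closure (⋃ x ∈ F, B x), ⟨_, isOpen_biUnion fun x _ => (hB x).1, ?_, rfl⟩, ?_⟩
    · rw [hF.closure_biUnion, iUnion₂_inter]
      exact hF.biUnion fun x _ => (hB x).2.2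
    · intro x hx
      exact closure_mono (subset_biUnion_of_mem (u := B) hx) (hB x).2.1
  have hO : 𝒲 ∈ OmegaS X := by
    refine ⟨?_, ?_, hfin⟩
    · rw [eq_univ_iff_forall]
      intro x
      obtain ⟨u, hu, hxu⟩ := hfin {x} (finite_singleton x)
      exact ⟨u, hu, hxu rfl⟩
    · rintro u ⟨C, hC, -, rfl⟩
      refine ⟨closure_mono (interior_maximal subset_closure hC), ?_⟩
      rw [closure_closure]
      exact interior_subset
  obtain ⟨U, hU, hG⟩ := hS (fun _ => 𝒲) fun _ => hO
  have hcov : N = ⋃ n, U n ∩ N := by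
    rw [← iUnion_inter, ← sUnion_range, hG.1, univ_inter]
  rw [hcov]
  refine countable_iUnion fun n => ?_
  obtain ⟨C, -, hC, hUC⟩ := hU n
  rw [hUC]
  exact hC.countable

end Run7.h181.OW
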